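import Mathlib
import Pool.Agent.H54.G.H58P.Det

set_option autoImplicit false

/-!
# Bounds at all places for periodic points of monic polynomials
-/

namespace Pool.Agent.H58P

open IntermediateField Polynomial Module

lemma periodic_le {X Γ : Type*} [LinearOrder Γ] (f : X → X) (N : X → Γ) (T : Γ)
    (h : ∀ u, T < N u → N u < N (f u)) (w : X) (n : ℕ) (hn : 0 < n) (hw : f^[n] w = w) :
    N w ≤ T := by
  by_contra hcon
  rw [not_le] at hcon
  have key : ∀ k, N w ≤ N (f^[k] w) ∧ N w < N (f^[k + 1] w) := by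
    intro k
    induction k with
    | zero => exact ⟨le_rfl, h w hcon⟩
    | succ k ih =>
      refine ⟨ih.2.le, ?_⟩
      rw [Function.iterate_succ_apply' f (k + 1)]
      exact ih.2.trans (h _ (hcon.trans ih.2))
  obtain ⟨k, rfl⟩ : ∃ k, n = k + 1 := ⟨n - 1, by omega⟩
  have := (key k).2
  rw [hw] at this
  exact lt_irrefl _ this

lemma norm_prod_lt_one (s : Multiset ℂ) (h : ∀ r ∈ s, ‖r‖ < 1) :
    ‖s.prod‖ ≤ 1 ∧ (s ≠ 0 → ‖s.prod‖ < 1) := by
  induction s using Multiset.induction with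
  | empty => simp
  | cons a s ih =>
    have ha := h a (Multiset.mem_cons_self a s)
    have hs := (ih fun r hr => h r (Multiset.mem_cons_of_mem hr)).1
    have : ‖(a ::ₘ s).prod‖ < 1 := by
      rw [Multiset.prod_cons, norm_mul]
      calc ‖a‖ * ‖s.prod‖ ≤ ‖a‖ * 1 := mul_le_mul_of_nonneg_left hs (norm_nonneg _)
        _ < 1 := by rw [mul_one]; exact ha
    exact ⟨this.le, fun _ => this⟩

lemma qb_isIntegral (x : Qb) : IsIntegral ℚ x :=
  ((AlgebraicClosure.isAlgebraic ℚ).isAlgebraic x).isIntegral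

/-- a nonzero algebraic integer has a conjugate of absolute value at least one -/
lemma exists_large_conj (z : Qb) (hz : z ≠ 0) (hint : IsIntegral ℤ z) :
    ∃ φ : Qb →+* ℂ, 1 ≤ ‖φ z‖ := by
  by_contra hcon
  push Not at hcon
  have hmp : (minpoly ℤ z).map (algebraMap ℤ ℚ) = minpoly ℚ z :=
    (minpoly.isIntegrallyClosed_eq_field_fractions' ℚ hint).symm
  set f : ℂ[X] := (minpoly ℚ z).map (algebraMap ℚ ℂ) with hf
  have hmon : f.Monic := (minpoly.monic (qb_isIntegral z)).map _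
  have hroots : ∀ r ∈ f.roots, ‖r‖ < 1 := by
    intro r hr
    have h1 : aeval r (minpoly ℚ z) = 0 := by
      have := (mem_roots hmon.ne_zero).mp hr
      rwa [IsRoot.def, hf, eval_map_algebraMap] at this
    obtain ⟨φ, hφ⟩ := IntermediateField.exists_algHom_of_splits_of_aeval (F := ℚ) (E := Qb) (K := ℂ)
      (fun s => ⟨qb_isIntegral s, IsAlgClosed.splits _⟩) h1
    have := hcon (φ : Qb →+* ℂ)
    rw [← hφ]
    exact this
  have hcoeff : f.coeff 0 = (-1) ^ f.natDegree * f.roots.prod :=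
    (IsAlgClosed.splits f).coeff_zero_eq_prod_roots_of_monic hmon
  have hne : f.roots ≠ 0 := by
    rw [Ne, ← Multiset.card_eq_zero, ← (IsAlgClosed.splits f).natDegree_eq_card_roots]
    have h1 := minpoly.natDegree_pos (qb_isIntegral z)
    rw [hf, natDegree_map]
    omega
  have hlt : ‖f.coeff 0‖ < 1 := by
    rw [hcoeff, norm_mul, norm_pow, norm_neg, norm_one, one_pow, one_mul]
    exact (norm_prod_lt_one _ hroots).2 hne
  have hc : f.coeff 0 = (((minpoly ℤ z).coeff 0 : ℤ) : ℂ) := by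
    rw [hf, ← hmp, coeff_map, coeff_map]
    simp
  have hc0 : (minpoly ℤ z).coeff 0 ≠ 0 := by
    intro h0
    have h1 : (minpoly ℚ z).coeff 0 = 0 := by
      rw [← hmp, coeff_map, h0, map_zero]
    exact hz ((minpoly.coeff_zero_eq_zero (qb_isIntegral z)).mp h1)
  rw [hc, Complex.norm_intCast] at hlt
  have h2 : (1 : ℝ) ≤ |((minpoly ℤ z).coeff 0 : ℝ)| := by
    exact_mod_cast Int.one_le_abs hc0
  linarith

/-- all conjugates of an algebraic number are bounded -/
lemma exists_conj_bound (c : Qb) : ∃ β : ℝ, 0 ≤ β ∧ ∀ φ : Qb →+* ℂ, ‖φ c‖ ≤ β := by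
  obtain ⟨β, hβ⟩ := (((rootSet_finite (minpoly ℚ c) ℂ)).image norm).bddAbove
  refine ⟨max β 0, le_max_right _ _, fun φ => ?_⟩
  have h1 : φ c ∈ (minpoly ℚ c).rootSet ℂ := by
    rw [mem_rootSet]
    refine ⟨minpoly.ne_zero (qb_isIntegral c), ?_⟩
    have h2 : aeval (φ.toRatAlgHom c) (minpoly ℚ c) = 0 := by
      rw [aeval_algHom_apply, minpoly.aeval, map_zero]
    exact h2
  exact (hβ ⟨φ c, h1, rfl⟩).trans (le_max_left _ _)

/-- denominators -/
lemma exists_den (c : Qb) : ∃ d : ℕ, 0 < d ∧ IsIntegral ℤ ((d : Qb) * c) := by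
  have halg : IsAlgebraic ℤ c := (IsFractionRing.isAlgebraic_iff ℤ ℚ Qb).mpr
    (qb_isIntegral c).isAlgebraic
  obtain ⟨y, hy0, hy⟩ := halg.exists_integral_multiple
  refine ⟨y.natAbs, Int.natAbs_pos.mpr hy0, ?_⟩
  rcases Int.natAbs_eq y with h | h
  · have h2 : ((y.natAbs : ℕ) : Qb) = ((y : ℤ) : Qb) := by
      rw [← Int.cast_natCast, ← h]
    rw [h2]
    simpa [zsmul_eq_mul] using hy
  · have h2 : ((y.natAbs : ℕ) : Qb) = -((y : ℤ) : Qb) := by
      have : ((y.natAbs : ℕ) : ℤ) = -y := by omega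
      rw [← Int.cast_natCast, this, Int.cast_neg]
    rw [h2, neg_mul]
    have := hy.neg
    simpa [zsmul_eq_mul] using this

lemma coeff_bounds (g : Qb[X]) : ∃ (D : ℕ) (β : ℝ), 0 < D ∧ 0 ≤ β ∧
    (∀ i, IsIntegral ℤ ((D : Qb) * g.coeff i)) ∧ ∀ φ : Qb →+* ℂ, ∀ i, ‖φ (g.coeff i)‖ ≤ β := by
  choose d hd0 hd using exists_den
  choose b hb0 hb using exists_conj_bound
  refine ⟨∏ i ∈ Finset.range (g.natDegree + 1), d (g.coeff i),
    ∑ i ∈ Finset.range (g.natDegree + 1), b (g.coeff i), Finset.prod_pos fun i _ => hd0 _,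
    Finset.sum_nonneg fun i _ => hb0 _, ?_, ?_⟩
  · intro i
    by_cases hi : i ∈ Finset.range (g.natDegree + 1)
    · rw [← Finset.mul_prod_erase _ _ hi, Nat.cast_mul, mul_assoc, mul_comm, mul_assoc,
        mul_comm (g.coeff i)]
      apply IsIntegral.mul _ (hd _)
      have := isIntegral_algebraMap (R := ℤ) (A := Qb)
        (x := ((∏ x ∈ (Finset.range (g.natDegree + 1)).erase i, d (g.coeff x) : ℕ) : ℤ))
      simpa using this
    · have h0 : g.coeff i = 0 := by
        apply coeff_eq_zero_of_natDegree_lt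
        rw [Finset.mem_range] at hi
        omega
      rw [h0, mul_zero]
      exact isIntegral_zero
  · intro φ i
    by_cases hi : i ∈ Finset.range (g.natDegree + 1)
    · exact (hb _ φ).trans (Finset.single_le_sum (f := fun i => b (g.coeff i))
        (fun i _ => hb0 _) hi)
    · have h0 : g.coeff i = 0 := by
        apply coeff_eq_zero_of_natDegree_lt
        rw [Finset.mem_range] at hi
        omega
      rw [h0, map_zero, norm_zero]
      exact Finset.sum_nonneg fun i _ => hb0 _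

/-- archimedean bound -/
lemma norm_le_of_periodic (G : ℂ[X]) (hG : G.Monic) (hdeg : 2 ≤ G.natDegree) (β : ℝ)
    (hβ0 : 0 ≤ β) (hβ : ∀ i, ‖G.coeff i‖ ≤ β) (w : ℂ) (n : ℕ) (hn : 0 < n)
    (hw : (fun x => G.eval x)^[n] w = w) : ‖w‖ ≤ 1 + G.natDegree * β := by
  refine periodic_le (fun x => G.eval x) norm (1 + G.natDegree * β) ?_ w n hn hw
  intro u hu
  set m := G.natDegree with hm
  have hmβ : 0 ≤ (m : ℝ) * β := by positivity
  have hu1 : 1 < ‖u‖ := by linarith
  have h1 : G.eval u = (∑ i ∈ Finset.range m, G.coeff i * u ^ i) + u ^ m := by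
    rw [eval_eq_sum_range, ← hm, Finset.sum_range_succ]
    have : G.coeff m = 1 := hG
    rw [this, one_mul]
  have h2 : ‖∑ i ∈ Finset.range m, G.coeff i * u ^ i‖ ≤ m * β * ‖u‖ ^ (m - 1) := by
    calc ‖∑ i ∈ Finset.range m, G.coeff i * u ^ i‖ ≤ ∑ i ∈ Finset.range m, β * ‖u‖ ^ (m - 1) := by
          apply norm_sum_le_of_le
          intro i hi
          rw [norm_mul, norm_pow]
          apply mul_le_mul (hβ i) _ (by positivity) hβ0
          apply pow_le_pow_right₀ hu1.le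
          rw [Finset.mem_range] at hi
          omega
      _ = m * β * ‖u‖ ^ (m - 1) := by
          rw [Finset.sum_const, Finset.card_range, nsmul_eq_mul]; ring
  have h3 : ‖u‖ ^ m = ‖u‖ * ‖u‖ ^ (m - 1) := by
    rw [← pow_succ']
    congr 1
    omega
  have h4 : ‖u‖ ≤ ‖u‖ ^ (m - 1) := by
    calc ‖u‖ = ‖u‖ ^ 1 := (pow_one _).symm
      _ ≤ _ := pow_le_pow_right₀ hu1.le (by omega)
  have h5 : ‖u ^ m‖ - ‖∑ i ∈ Finset.range m, G.coeff i * u ^ i‖ ≤ ‖G.eval u‖ := by
    rw [h1, add_comm]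
    have := norm_sub_norm_le (u ^ m) (-∑ i ∈ Finset.range m, G.coeff i * u ^ i)
    rwa [norm_neg, sub_neg_eq_add] at this
  rw [norm_pow, h3] at h5
  show ‖u‖ < ‖G.eval u‖
  have h6 : ‖u‖ * ‖u‖ ^ (m - 1) - m * β * ‖u‖ ^ (m - 1) = (‖u‖ - m * β) * ‖u‖ ^ (m - 1) := by ring
  have h7 : 1 < ‖u‖ - m * β := by linarith
  have h8 : 1 * ‖u‖ ^ (m - 1) < (‖u‖ - m * β) * ‖u‖ ^ (m - 1) :=
    mul_lt_mul_of_pos_right h7 (by linarith)
  linarith

/-- nonarchimedean bound -/
lemma den_of_periodic (g : Qb[X]) (hg : g.Monic) (hdeg : 2 ≤ g.natDegree) (D : ℕ) (hD : 0 < D)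
    (hint : ∀ i, IsIntegral ℤ ((D : Qb) * g.coeff i)) (z : Qb) (n : ℕ) (hn : 0 < n)
    (hz : (fun x => g.eval x)^[n] z = z) : IsIntegral ℤ ((D : Qb) * z) := by
  by_contra hcon
  have hD0 : (D : Qb) ≠ 0 := by exact_mod_cast hD.ne'
  have h1 : (D : Qb) * z ∉ (integralClosure ℤ Qb).toSubring := fun h => hcon h
  obtain ⟨V, hV, hzV⟩ := Subring.exists_le_valuationSubring_of_isIntegrallyClosedIn h1
  apply hzV
  set v := V.valuation with hv
  have hle : ∀ x : Qb, IsIntegral ℤ x → v x ≤ 1 := by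
    intro x hx
    rw [hv, ValuationSubring.valuation_le_one_iff]
    exact hV hx
  have hDint : IsIntegral ℤ (D : Qb) := by
    have := isIntegral_algebraMap (R := ℤ) (A := Qb) (x := (D : ℤ))
    simpa using this
  have hvD0 : v (D : Qb) ≠ 0 := (Valuation.ne_zero_iff _).mpr hD0
  have hvD : v (D : Qb) ≤ 1 := hle _ hDint
  have hR1 : 1 ≤ (v (D : Qb))⁻¹ := (one_le_inv₀ (zero_lt_iff.mpr hvD0)).mpr hvD
  have hc : ∀ i, v (g.coeff i) ≤ (v (D : Qb))⁻¹ := by
    intro i
    have := hle _ (hint i)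
    rw [map_mul] at this
    rw [← mul_le_mul_iff_right₀ (zero_lt_iff.mpr hvD0), mul_inv_cancel₀ hvD0]
    exact this
  rw [← ValuationSubring.valuation_le_one_iff, map_mul]
  have key : v z ≤ (v (D : Qb))⁻¹ := by
    refine periodic_le (fun x => g.eval x) v (v (D : Qb))⁻¹ ?_ z n hn hz
    intro u hu
    set m := g.natDegree with hm
    have hu1 : 1 < v u := lt_of_le_of_lt hR1 hu
    have hu0 : v u ≠ 0 := (lt_trans zero_lt_one hu1).ne'
    have e1 : g.eval u = (∑ i ∈ Finset.range m, g.coeff i * u ^ i) + u ^ m := by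
      rw [eval_eq_sum_range, ← hm, Finset.sum_range_succ]
      have : g.coeff m = 1 := hg
      rw [this, one_mul]
    have e2 : v (∑ i ∈ Finset.range m, g.coeff i * u ^ i) < v (u ^ m) := by
      apply Valuation.map_sum_lt
      · rw [map_pow]; exact pow_ne_zero _ hu0
      · intro i hi
        rw [Finset.mem_range] at hi
        rw [map_mul, map_pow, map_pow]
        calc v (g.coeff i) * v u ^ i ≤ (v (D : Qb))⁻¹ * v u ^ i := by gcongr; exact hc i
          _ < v u * v u ^ i := by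
              apply mul_lt_mul_of_pos_right hu
              exact pow_pos (lt_trans zero_lt_one hu1) _
          _ = v u ^ (i + 1) := (pow_succ' _ _).symm
          _ ≤ v u ^ m := pow_le_pow_right₀ hu1.le (by omega)
    have e3 : v (g.eval u) = v (u ^ m) := by
      rw [e1, add_comm]
      exact Valuation.map_add_eq_of_lt_left _ e2
    show v u < v (g.eval u)
    rw [e3, map_pow]
    calc v u = v u ^ 1 := (pow_one _).symm
      _ < v u ^ m := pow_lt_pow_right₀ hu1 (by omega)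
  calc v (D : Qb) * v z ≤ v (D : Qb) * (v (D : Qb))⁻¹ := by gcongr
    _ = 1 := mul_inv_cancel₀ hvD0

end Pool.Agent.H58P
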