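import Mathlib
import Pool.Agent.H54.G.H58W.HtNorth
import Pool.Agent.H54.G.H58W.HtLimit
import Pool.Agent.H54.G.H58P.Tow

set_option autoImplicit false

/-!
# Heights
-/

namespace Pool.Agent.H58P

open Polynomial NumberField Height Module
open Pool.Agent.Helper259.AbsHt

/-- the height of an algebraic number -/
noncomputable abbrev ht (x : Qb) : ℝ := absLogHeight ![1, x]

open IntermediateField in
lemma absLogHeight₁_general {K : Type*} [Field K] [CharZero K] (x : K) (hx : IsIntegral ℚ x)
    [NumberField ℚ⟮x⟯] (φ : K →+* Qb) : NumberField.absLogHeight₁ x = ht (φ x) := by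
  unfold NumberField.absLogHeight₁ NumberField.absMulHeight₁
  rw [dif_pos hx]
  have h1 := absLogHeight_eq ℚ⟮x⟯ (φ.comp (algebraMap ℚ⟮x⟯ K)) ![1, AdjoinSimple.gen ℚ x]
  have e : (fun i => (φ.comp (algebraMap ℚ⟮x⟯ K)) (![1, AdjoinSimple.gen ℚ x] i)) = ![1, φ x] := by
    funext i
    fin_cases i
    · simp
    · simp
  rw [e] at h1
  rw [Real.log_rpow (mulHeight₁_pos _), ← logHeight₁_eq_log_mulHeight₁, logHeight₁_eq_logHeight,
    logHeight_swap, ht, h1]
  rw [div_eq_inv_mul]

lemma absLogHeight₁_eq (x : Qb) : NumberField.absLogHeight₁ x = ht x := by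
  have hx0 : @IsIntegral ℚ Qb _ _ (DivisionRing.toRatAlgebra) x := by
    have := qb_isIntegral x
    convert this
  have hfd := IntermediateField.adjoin.finiteDimensional hx0
  have hnf : @NumberField (@IntermediateField.adjoin ℚ _ Qb _ DivisionRing.toRatAlgebra {x}) _ :=
    { to_charZero := inferInstance
      to_finiteDimensional := by convert hfd }
  exact absLogHeight₁_general x hx0 (RingHom.id Qb)

end Pool.Agent.H58P
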